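import Pool.Agent.V7H68.HF.Spec2

set_option autoImplicit false

/-!
FREQ: bad levels are rare along almost every branch, for almost all parameters.
-/

namespace Pool.Agent.V7H80.HF

open Finset Real MeasureTheory Filter
open Pool.Agent.V7H68.SS Pool.Agent.V7H68.MS Pool.Agent.V7H68.UF Pool.Agent.V7H68.HZ
open Pool.Agent.V7H68.HF
open scoped ENNReal

set_option linter.unusedSectionVars false

variable {ι : Type} [Fintype ι] [DecidableEq ι] {b : ℕ}

theorem bdr_joint (Z : (ι → ℝ) → ι → ℝ) {M : (ι → ℝ) → (ι → ℝ) →L[ℝ] (ι → ℝ)}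
    (hM : Measurable M) (ρ : ℝ) (n : ℕ) :
    MeasurableSet {p : (ι → ℝ) × ℝ | p.2 ∈ bdr b (fM Z (M p.1)) ρ n} := by
  have h1 : {p : (ι → ℝ) × ℝ | p.2 ∈ bdr b (fM Z (M p.1)) ρ n} =
      ⋃ l ∈ Finset.range (Fintype.card ι + 1),
      ⋃ x : (Fin (l + 1) → ι → Fin (b ^ n)) × (ι → Fin (b ^ n)) × (Fin (l + 1) → ι),
        {p : (ι → ℝ) × ℝ | p.2 ∈ bd1 b n (fM Z (M p.1)) ρ x.1 x.2.1 x.2.2} := by
    ext p
    simp only [bdr, Set.mem_ofPred_eq, Set.mem_iUnion]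
  rw [h1]
  refine Finset.measurableSet_biUnion _ fun l _ => MeasurableSet.iUnion fun x => ?_
  by_cases hW : (mV b n x.1 x.2.1 x.2.2).det = 0
  · have h2 : {p : (ι → ℝ) × ℝ | p.2 ∈ bd1 b n (fM Z (M p.1)) ρ
        x.1 x.2.1 x.2.2} = ∅ := by
      ext p
      simp [bd1, hW]
    rw [h2]
    exact MeasurableSet.empty
  · have h2 : {p : (ι → ℝ) × ℝ | p.2 ∈ bd1 b n (fM Z (M p.1)) ρ
        x.1 x.2.1 x.2.2} =
        {p : (ι → ℝ) × ℝ | |(mX b n (fM Z (M p.1)) x.1 x.2.1 x.2.2 +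
          p.2 • mV b n x.1 x.2.1 x.2.2).det| < ρ ^ (l + 1)} := by
      ext p
      simp [bd1, hW]
    rw [h2]
    refine measurableSet_lt ?_ measurable_const
    refine continuous_abs.measurable.comp (det_meas fun i j => ?_)
    simp only [Matrix.add_apply, Matrix.smul_apply, mX, Matrix.of_apply, smul_eq_mul]
    have hXm : ∀ w : ι → Fin (b ^ n), Measurable fun p : (ι → ℝ) × ℝ =>
        Pool.Agent.V7H68.UF.X b n (fM Z (M p.1)) w (x.2.2 j) := by
      intro w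
      unfold Pool.Agent.V7H68.UF.X
      have h3 : ∀ p : (ι → ℝ) × ℝ, ((b:ℝ) ^ n • fM Z (M p.1)
          (((b ^ n : ℕ) : ℝ)⁻¹ • nv (dv w))) (x.2.2 j) =
          (b:ℝ) ^ n * (Z (((b ^ n : ℕ) : ℝ)⁻¹ • nv (dv w)) (x.2.2 j) +
            (M p.1 (((b ^ n : ℕ) : ℝ)⁻¹ • nv (dv w))) (x.2.2 j)) := by
        intro p
        rw [fM_mem _ _ (corner_mem_cube (dv_lt w))]
        rfl
      simp only [h3]
      refine Measurable.const_mul ?_ _
      refine measurable_const.add ?_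
      have h4 : Measurable fun v => M v (((b ^ n : ℕ) : ℝ)⁻¹ • nv (dv w)) := by
        have h5 : Continuous fun T : (ι → ℝ) →L[ℝ] (ι → ℝ) =>
          T (((b ^ n : ℕ) : ℝ)⁻¹ • nv (dv w)) := by fun_prop
        exact h5.measurable.comp hM
      exact ((measurable_pi_apply (x.2.2 j)).comp h4).comp measurable_fst
    exact ((hXm _).sub (hXm _)).add (measurable_snd.mul_const _)

theorem bdr_meas (f : (ι → ℝ) → ι → ℝ) (ρ : ℝ) (n : ℕ) : MeasurableSet (bdr b f ρ n) := by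
  unfold bdr
  refine Finset.measurableSet_biUnion _ fun l _ => ?_
  exact MeasurableSet.iUnion fun x => bd1_meas n f _ x.1 x.2.1 x.2.2

theorem bdr_cl_joint (g : (ι → ℝ) → ι → ℝ) {M : (ι → ℝ) → (ι → ℝ) →L[ℝ] (ι → ℝ)}
    (hM : Measurable M) (ρ : ℝ) (n k : ℕ) :
    MeasurableSet {p : (ι → ℝ) × ℝ |
      p.2 ∈ bdr b (fM (zm (b ^ k) (cl b k p.1).2 g) (M p.1)) ρ n} := by
  have h1 : {p : (ι → ℝ) × ℝ | p.2 ∈ bdr b (fM (zm (b ^ k) (cl b k p.1).2 g) (M p.1)) ρ n} =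
      ⋃ z : ι → ℕ, ({p : (ι → ℝ) × ℝ | (cl b k p.1).2 = z} ∩
        {p : (ι → ℝ) × ℝ | p.2 ∈ bdr b (fM (zm (b ^ k) z g) (M p.1)) ρ n}) := by
    ext p
    simp only [Set.mem_iUnion, Set.mem_inter_iff, Set.mem_ofPred_eq]
    constructor
    · intro h
      exact ⟨_, rfl, h⟩
    · rintro ⟨z, rfl, h⟩
      exact h
  rw [h1]
  refine MeasurableSet.iUnion fun z => MeasurableSet.inter ?_ (bdr_joint _ hM ρ n)
  have h2 : Measurable fun p : (ι → ℝ) × ℝ => (cl b k p.1).2 := by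
    refine measurable_pi_lambda _ fun i => ?_
    exact Nat.measurable_floor.comp (((measurable_pi_apply i).comp measurable_fst).const_mul _)
  exact h2 (measurableSet_singleton z)

theorem PS_joint (g : (ι → ℝ) → ι → ℝ) {M : (ι → ℝ) → (ι → ℝ) →L[ℝ] (ι → ℝ)}
    (hM : Measurable M) (A : ℕ) (Λ : Set ℕ) (l0 L : ℕ) (r : ℝ) (k : ℕ) :
    Measurable fun p : (ι → ℝ) × ℝ => PS b g (M p.1) A Λ l0 L r p.2 (cl b k p.1) := by
  classical
  unfold PS
  refine Finset.measurable_fun_sum _ fun l _ => ?_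
  by_cases hl : l ∈ Λ
  · simp only [hl, true_and]
    exact Measurable.ite (bdr_cl_joint g hM _ l k) measurable_const measurable_const
  · simp only [hl, false_and, if_false]
    exact measurable_const

/-- The conclusion for a countable set of constants. -/
def Good (b : ℕ) (g : (ι → ℝ) → ι → ℝ) (M : (ι → ℝ) →L[ℝ] (ι → ℝ)) (A : ℕ) (Λ : Set ℕ)
    (v : ι → ℝ) (t : ℝ) : Prop :=
  |t| ≤ 1 → ∀ m : ℕ, ∀ᶠ l0 : ℕ in atTop, ∀ L : ℕ, ∀ᶠ N : ℕ in atTop,
      ∑ k ∈ range N, PS b g M A Λ l0 L 4 t (cl b k v) ≤ (1 / ((m : ℝ) + 1)) * N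

theorem good_meas (g : (ι → ℝ) → ι → ℝ) {M : (ι → ℝ) → (ι → ℝ) →L[ℝ] (ι → ℝ)}
    (hM : Measurable M) (A : ℕ) (Λ : Set ℕ) :
    MeasurableSet {p : (ι → ℝ) × ℝ | Good b g (M p.1) A Λ p.1 p.2} := by
  have h1 : {p : (ι → ℝ) × ℝ | Good b g (M p.1) A Λ p.1 p.2} =
      {p : (ι → ℝ) × ℝ | |p.2| ≤ 1}ᶜ ∪ ⋂ m : ℕ, ⋃ n0 : ℕ, ⋂ l0 : ℕ, ⋂ _ : n0 ≤ l0, ⋂ L : ℕ,
        ⋃ N0 : ℕ, ⋂ N : ℕ, ⋂ _ : N0 ≤ N,
        {p : (ι → ℝ) × ℝ | ∑ k ∈ range N, PS b g (M p.1) A Λ l0 L 4 p.2 (cl b k p.1) ≤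
          (1 / ((m : ℝ) + 1)) * N} := by
    ext p
    simp only [Good, Set.mem_ofPred_eq, Set.mem_union, Set.mem_compl_iff, Set.mem_iUnion,
      Set.mem_iInter, eventually_atTop, imp_iff_not_or]
  rw [h1]
  refine MeasurableSet.union ?_ ?_
  · exact (measurableSet_le (continuous_abs.measurable.comp measurable_snd)
      measurable_const).compl
  · refine MeasurableSet.iInter fun m => MeasurableSet.iUnion fun n0 => MeasurableSet.iInter
      fun l0 => MeasurableSet.iInter fun _ => MeasurableSet.iInter fun L => MeasurableSet.iUnion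
      fun N0 => MeasurableSet.iInter fun N => MeasurableSet.iInter fun _ => ?_
    exact measurableSet_le (Finset.measurable_fun_sum _ fun k _ => PS_joint g hM A Λ l0 L 4 k)
      measurable_const

theorem cl_lt (hb : 0 < b) {v : ι → ℝ} (hv : v ∈ cube ι) (k : ℕ) (i : ι) :
    (cl b k v).2 i < b ^ (cl b k v).1 := by
  have hb0 : (0:ℝ) < (b:ℝ) ^ k := by positivity
  change ⌊(b:ℝ) ^ k * v i⌋₊ < b ^ k
  rw [Nat.floor_lt (mul_nonneg hb0.le (hv i).1)]
  push_cast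
  have := (hv i).2
  nlinarith

theorem fixed (hFQ : S_FQ1) (hBN : S_BN) (hb : 2 ≤ b) {R : ℝ} {g : (ι → ℝ) → ι → ℝ}
    (hg : Bz b R g) (d : ℕ) (Λ : Set ℕ) (p : ℕ → ℕ) (col : (l : ℕ) → St ι → Fin (p l))
    (hcol : ∀ l ∈ Λ, ∀ x x' : St ι, (∀ i, x.2 i < b ^ x.1) → (∀ i, x'.2 i < b ^ x'.1) →
      col l x = col l x' → ∀ y ∈ cube ι, ‖zm (b ^ x.1) x.2 g y - zm (b ^ x'.1) x'.2 g y‖ ≤
        2 * ((b:ℝ) ^ (Cd (Fintype.card ι) d * l))⁻¹)
    {v : ι → ℝ} (hv : v ∈ cube ι)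
    (hfr : ∀ l ∈ Λ, ∑ a, limsup (fun N : ℕ => (N:ℝ)⁻¹ *
      ((((range N).filter fun k => col l (cl b k v) = a).card : ℕ) : ℝ)) atTop ≤ (b:ℝ) ^ (d * l))
    (M : (ι → ℝ) →L[ℝ] (ι → ℝ)) :
    ∀ᵐ t : ℝ, Good b g M (Ad (Fintype.card ι) d) Λ v t := by
  classical
  have hbp : 0 < b := by omega
  have hb0 : (0:ℝ) < b := by exact_mod_cast hbp
  have hb1 : (1:ℝ) < b := by exact_mod_cast (by omega : 1 < b)
  set m := Fintype.card ι with hm
  set A : ℕ := Ad m d with hA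
  -- the exceptional sets
  set E : (l : ℕ) → Fin (p l) → Set ℝ := fun l a =>
    if h : ∃ x : St ι, (∀ i, x.2 i < b ^ x.1) ∧ col l x = a then
      bdr b (fM (zm (b ^ h.choose.1) h.choose.2 g) M) (2 * (4 * ((b:ℝ) ^ (A * l))⁻¹)) l
    else ∅ with hE
  have hEm : ∀ l a, MeasurableSet (E l a) := by
    intro l a
    simp only [hE]
    split_ifs with h
    · exact bdr_meas _ _ _
    · exact MeasurableSet.empty
  have hEv : ∀ l ∈ Λ, ∀ a, volume (E l a) ≤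
      ENNReal.ofReal ((Cb ι * 8) * ((b:ℝ) ^ ((d + 1) * l))⁻¹) := by
    intro l _ a
    simp only [hE]
    split_ifs with h
    · refine (bdr_vol hb _ (by positivity) l).trans (ENNReal.ofReal_le_ofReal (le_of_eq ?_))
      have e1 : A * l = m * (m + 2) * l + (d + 1) * l := by
        rw [hA]
        unfold Ad
        ring
      rw [e1, pow_add, mul_inv, ← hm]
      have h2 : (b:ℝ) ^ (m * (m + 2) * l) ≠ 0 := by positivity
      field_simp
      ring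
    · rw [measure_empty]
      exact zero_le
  have hmain := hFQ d b hb (Cb ι * 8) Λ p (fun l k => col l (cl b k v)) E hEm hEv hfr
  -- the large levels
  have h2 : ∀ᶠ n : ℕ in atTop, (Nat.factorial (m + 1) : ℝ) * (((m + 1 : ℕ) : ℝ) *
      ((2 * (R + ‖M‖) + 3) ^ (m + 1) * 4)) ≤ (b:ℝ) ^ n :=
    (tendsto_pow_atTop_atTop_of_one_lt hb1).eventually_ge_atTop _
  obtain ⟨l1, hl1⟩ := eventually_atTop.1 h2
  filter_upwards [hmain] with t ht ht1 q
  have hq : (0:ℝ) < 1 / ((q:ℝ) + 1) := by positivity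
  filter_upwards [ht _ hq, eventually_ge_atTop l1] with l0 hl0 hl01 L
  filter_upwards [hl0 L] with N hN
  refine le_trans ?_ hN
  refine Finset.sum_le_sum fun k _ => ?_
  unfold PS
  refine Finset.sum_le_sum fun l hl => ?_
  rw [Finset.mem_Icc] at hl
  by_cases hc : l ∈ Λ ∧ t ∈ bdr b (fM (zm (b ^ (cl b k v).1) (cl b k v).2 g) M)
      (4 * ((b:ℝ) ^ (A * l))⁻¹) l
  · have h3 : l ∈ Λ ∧ t ∈ E l (col l (cl b k v)) := by
      refine ⟨hc.1, ?_⟩
      have hex : ∃ x : St ι, (∀ i, x.2 i < b ^ x.1) ∧ col l x = col l (cl b k v) :=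
        ⟨cl b k v, cl_lt hbp hv k, rfl⟩
      simp only [hE]
      rw [dif_pos hex]
      have hx := hex.choose_spec
      set x := hex.choose with hxdef
      refine hBN ι b hb (R + ‖M‖) _ _
        ((hg.zoom hbp (cl_lt hbp hv k)).fM hbp le_rfl) A l t (4 * ((b:ℝ) ^ (A * l))⁻¹) ht1 ?_ ?_
        ?_ hc.2
      · have : 0 < ((b:ℝ) ^ (A * l))⁻¹ := by positivity
        linarith
      · intro y hy
        rw [fM_mem _ _ hy, fM_mem _ _ hy, add_sub_add_right_eq_sub]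
        exact hcol l hc.1 _ _ (cl_lt hbp hv k) hx.1 hx.2.symm y hy
      · exact hl1 l (by omega)
    rw [if_pos hc, if_pos h3]
  · rw [if_neg hc]
    split_ifs
    · positivity
    · exact le_rfl

theorem t_FREQ (hFQ : S_FQ1) (hBN : S_BN) : S_FREQ := by
  intro ι _ _ b hb R g hg d Λ hΛ M hM
  classical
  have hch : ∀ l : ℕ, ∃ (p : ℕ) (col : St ι → Fin p), l ∈ Λ →
      ((∀ x x' : St ι, (∀ i, x.2 i < b ^ x.1) → (∀ i, x'.2 i < b ^ x'.1) → col x = col x' →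
      ∀ y ∈ cube ι, ‖zm (b ^ x.1) x.2 g y - zm (b ^ x'.1) x'.2 g y‖ ≤
        2 * ((b:ℝ) ^ (Cd (Fintype.card ι) d * l))⁻¹) ∧
      ∀ᵐ v ∂(volume.restrict (cube ι)), ∑ a, limsup (fun N : ℕ => (N:ℝ)⁻¹ *
        ((((range N).filter fun k => col (cl b k v) = a).card : ℕ) : ℝ)) atTop ≤
          (b:ℝ) ^ (d * l)) := by
    intro l
    by_cases hl : l ∈ Λ
    · obtain ⟨p, col, h⟩ := hΛ l hl
      exact ⟨p, col, fun _ => h⟩
    · exact ⟨1, fun _ => 0, fun h => absurd h hl⟩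
  choose p col hcol using hch
  have hv : ∀ᵐ v ∂(volume.restrict (cube ι)), ∀ᵐ t : ℝ,
      Good b g (M v) (Ad (Fintype.card ι) d) Λ v t := by
    have h1 : ∀ᵐ v ∂(volume.restrict (cube ι)), ∀ l : ℕ, l ∈ Λ →
        ∑ a, limsup (fun N : ℕ => (N:ℝ)⁻¹ *
        ((((range N).filter fun k => col l (cl b k v) = a).card : ℕ) : ℝ)) atTop ≤
          (b:ℝ) ^ (d * l) := by
      rw [ae_all_iff]
      intro l
      by_cases hl : l ∈ Λ
      · filter_upwards [(hcol l hl).2] with v hv _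
        exact hv
      · filter_upwards with v h
        exact absurd h hl
    filter_upwards [h1, ae_restrict_mem cube_meas] with v hv1 hv2
    exact fixed hFQ hBN hb hg d Λ p col (fun l hl => (hcol l hl).1) hv2 hv1 (M v)
  have h2 := (Measure.ae_ae_comm (μ := volume.restrict (cube ι)) (ν := (volume : Measure ℝ))
    (p := fun v t => Good b g (M v) (Ad (Fintype.card ι) d) Λ v t)
    (good_meas g hM (Ad (Fintype.card ι) d) Λ)).1 hv
  filter_upwards [h2] with t ht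
  filter_upwards [ht] with v hv ht1 ε hε
  obtain ⟨q, hq⟩ := exists_nat_one_div_lt hε
  filter_upwards [hv ht1 q] with l0 hl0 L
  filter_upwards [hl0 L] with N hN
  refine hN.trans ?_
  exact mul_le_mul_of_nonneg_right hq.le (Nat.cast_nonneg N)

end Pool.Agent.V7H80.HF
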